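import Pool.Agent.R143.CutReal

set_option autoImplicit false

/-!
# The mechanism RD+PCD on a cycle

For every odd `n = 2 k + 1` and every profile on the circle of length one, the approximation ratio
of RD+PCD is smaller than `3 / 2`.
-/

open Finset

namespace Pool.Agent.Results.MP_9e0a8c_lc.HalfRatio

open Pool.Agent.R143.CutCore (Good dist_circle real_core)

/-- The circle of length `1`, with Mathlib's arc length metric `dist`: for reals `u, v` in
`[-1/2, 1/2]` the distance of their classes is `min |u - v| (1 - |u - v|)`. -/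
abbrev Circ : Type := UnitAddCircle

/-- Social cost of a point `v` for the profile `b`. -/
noncomputable def cost {n : ℕ} (b : Fin n → Circ) (v : Circ) : ℝ := ∑ i, dist (b i) v

/-- The optimal social cost. -/
noncomputable def opt {n : ℕ} (b : Fin n → Circ) : ℝ := ⨅ v, cost b v

/-- A lottery is a finitely supported probability distribution on the circle. -/
def IsLottery (l : Circ →₀ ℝ) : Prop := (∀ v, 0 ≤ l v) ∧ (l.sum fun _ p => p) = 1

/-- Social cost of a lottery: the sum over the agents of the expected distance. -/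
noncomputable def sc {n : ℕ} (b : Fin n → Circ) (l : Circ →₀ ℝ) : ℝ :=
  ∑ i, l.sum fun v p => p * dist (b i) v

/-- Random dictator: every agent's report is chosen with probability `1 / n`. -/
noncomputable def RD {n : ℕ} (b : Fin n → Circ) : Circ →₀ ℝ :=
  ∑ i, Finsupp.single (b i) (1 / (n : ℝ))

/-- A listing of the agents in clockwise order of their reports, with the places taken modulo `n`:
`a j` is the agent at place `j`, and `x j` is the coordinate of this agent when one walks clockwise
along the circle, so that one full turn (`n` places) adds the length `1` of the circle. -/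
structure Clockwise {n : ℕ} (b : Fin n → Circ) where
  /-- the agent at place `j` -/
  a : ℤ → Fin n
  /-- the clockwise coordinate of the agent at place `j` -/
  x : ℤ → ℝ
  a_per : ∀ j, a (j + n) = a j
  a_bij : Function.Bijective fun j : Fin n => a ((j : ℕ) : ℤ)
  x_per : ∀ j, x (j + n) = x j + 1
  x_mono : Monotone x
  pos : ∀ j, ((x j : ℝ) : Circ) = b (a j)

/-- The length of the arc opposing the agent at place `j`, for `n = 2 k + 1` agents: the clockwise
arc from the report at place `j + k` to the report at place `j + k + 1`, which is the same as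
`j - k` modulo `n`. -/
noncomputable def arc {k : ℕ} {b : Fin (2 * k + 1) → Circ} (L : Clockwise b) (j : ℤ) : ℝ :=
  L.x (j + k + 1) - L.x (j + k)

/-- The proportional circle distance mechanism: the report at place `j` is chosen with probability
proportional to the length of its opposing arc. -/
noncomputable def PCD {k : ℕ} (b : Fin (2 * k + 1) → Circ) (L : Clockwise b) : Circ →₀ ℝ :=
  ∑ j : Fin (2 * k + 1), Finsupp.single (b (L.a ((j : ℕ) : ℤ)))
    (arc L ((j : ℕ) : ℤ) / ∑ i : Fin (2 * k + 1), arc L ((i : ℕ) : ℤ))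

/-- RD and PCD with probability one half each. -/
noncomputable def RDPCD {k : ℕ} (b : Fin (2 * k + 1) → Circ) (L : Clockwise b) : Circ →₀ ℝ :=
  (1 / 2 : ℝ) • RD b + (1 / 2 : ℝ) • PCD b L

/-- The approximation ratio of a lottery (with value `1` if the optimal cost is zero). -/
noncomputable def apx {n : ℕ} (b : Fin n → Circ) (l : Circ →₀ ℝ) : ℝ :=
  open Classical in if 0 < opt b then sc b l / opt b else 1

theorem sc_eq {n : ℕ} (b : Fin n → Circ) (l : Circ →₀ ℝ) :
    sc b l = l.sum fun v p => p * cost b v := by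
  simp only [sc, cost, Finsupp.sum]
  rw [sum_comm]
  apply sum_congr rfl
  intro v _
  rw [mul_sum]

theorem sc_sum {n : ℕ} (b : Fin n → Circ) {ι : Type*} (s : Finset ι) (z : ι → Circ) (w : ι → ℝ) :
    sc b (∑ j ∈ s, Finsupp.single (z j) (w j)) = ∑ j ∈ s, w j * cost b (z j) := by
  rw [sc_eq, ← Finsupp.sum_finsetSum_index]
  · apply sum_congr rfl
    intro j _
    rw [Finsupp.sum_single_index]
    ring
  · intro v; ring
  · intro v p q; ring

theorem sc_comb {n : ℕ} (b : Fin n → Circ) (l1 l2 : Circ →₀ ℝ) :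
    sc b ((1 / 2 : ℝ) • l1 + (1 / 2 : ℝ) • l2) = (sc b l1 + sc b l2) / 2 := by
  rw [sc_eq, sc_eq, sc_eq, Finsupp.sum_add_index', Finsupp.sum_smul_index,
    Finsupp.sum_smul_index]
  · simp only [Finsupp.sum, mul_assoc, ← mul_sum]
    ring
  · intro v; ring
  · intro v; ring
  · intro v; ring
  · intro v p q; ring

theorem total_sum {ι : Type*} (s : Finset ι) (z : ι → Circ) (w : ι → ℝ) :
    ((∑ j ∈ s, Finsupp.single (z j) (w j)).sum fun _ p => p) = ∑ j ∈ s, w j := by
  rw [← Finsupp.sum_finsetSum_index]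
  · apply sum_congr rfl
    intro j _
    rw [Finsupp.sum_single_index]
    rfl
  · intro v; rfl
  · intro v p q; rfl

/-- Shifting a sum over a period. -/
theorem shift (n : ℕ) (g : ℤ → ℝ) (hg : ∀ j, g (j + n) = g j) (m : ℤ) :
    ∑ j ∈ range n, g (m + j) = ∑ j ∈ range n, g j := by
  have step : ∀ m : ℤ, ∑ j ∈ range n, g (m + 1 + j) = ∑ j ∈ range n, g (m + j) := by
    intro m
    have h1 := sum_range_succ (fun j : ℕ => g (m + j)) n
    have h2 := sum_range_succ' (fun j : ℕ => g (m + j)) n
    rw [h1] at h2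
    simp only [Nat.cast_zero, add_zero, hg m] at h2
    have h3 : ∑ j ∈ range n, g (m + j) = ∑ j ∈ range n, g (m + ((j + 1 : ℕ) : ℤ)) := by
      linarith
    rw [h3]
    apply sum_congr rfl
    intro j _
    congr 1
    push_cast
    ring
  induction m using Int.induction_on with
  | zero => simp
  | succ i ih => rw [step]; exact ih
  | pred i ih =>
    rw [← step]
    rw [show -(i : ℤ) - 1 + 1 = -(i : ℤ) by ring]
    exact ih

theorem x_mul {n : ℕ} {b : Fin n → Circ} (L : Clockwise b) (t : ℕ) (j : ℤ) :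
    L.x (j + t * n) = L.x j + t := by
  induction t with
  | zero => simp
  | succ t ih =>
    have : j + ((t + 1 : ℕ) : ℤ) * n = (j + t * n) + n := by push_cast; ring
    rw [this, L.x_per, ih]
    push_cast
    ring

/-- The total length of the opposing arcs is the length of the circle. -/
theorem sum_arcs {k : ℕ} {b : Fin (2 * k + 1) → Circ} (L : Clockwise b) :
    ∑ i : Fin (2 * k + 1), arc L ((i : ℕ) : ℤ) = 1 := by
  rw [Fin.sum_univ_eq_sum_range (fun i : ℕ => arc L (i : ℤ))]
  have := Finset.sum_range_sub (fun i : ℕ => L.x ((i : ℤ) + k)) (2 * k + 1)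
  have h2 : ∑ i ∈ range (2 * k + 1), arc L (i : ℤ) =
      L.x (((2 * k + 1 : ℕ) : ℤ) + k) - L.x (((0 : ℕ) : ℤ) + k) := by
    rw [← this]
    apply sum_congr rfl
    intro i _
    unfold arc
    congr 2
    push_cast
    ring
  rw [h2, add_comm ((2 * k + 1 : ℕ) : ℤ) (k : ℤ), L.x_per]
  simp

theorem arc_nonneg {k : ℕ} {b : Fin (2 * k + 1) → Circ} (L : Clockwise b) (j : ℤ) :
    0 ≤ arc L j := by
  unfold arc
  exact sub_nonneg.2 (L.x_mono (by omega))

theorem arc_per {k : ℕ} {b : Fin (2 * k + 1) → Circ} (L : Clockwise b) (j : ℤ) :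
    arc L (j + ((2 * k + 1 : ℕ) : ℤ)) = arc L j := by
  unfold arc
  rw [show j + ((2 * k + 1 : ℕ) : ℤ) + k + 1 = (j + k + 1) + ((2 * k + 1 : ℕ) : ℤ) by ring,
    show j + ((2 * k + 1 : ℕ) : ℤ) + k = (j + k) + ((2 * k + 1 : ℕ) : ℤ) by ring,
    L.x_per, L.x_per]
  ring

/-- The mechanism outputs a lottery. -/
theorem isLottery {k : ℕ} (b : Fin (2 * k + 1) → Circ) (L : Clockwise b) :
    IsLottery (RDPCD b L) := by
  constructor
  · intro v
    unfold RDPCD RD PCD
    rw [sum_arcs L]
    simp only [Finsupp.add_apply, Finsupp.smul_apply, smul_eq_mul, Finsupp.finsetSum_apply]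
    apply add_nonneg
    · apply mul_nonneg (by norm_num)
      apply sum_nonneg
      intro i _
      rw [Finsupp.single_apply]
      split_ifs
      · positivity
      · exact le_rfl
    · apply mul_nonneg (by norm_num)
      apply sum_nonneg
      intro i _
      rw [Finsupp.single_apply]
      split_ifs
      · rw [div_one]; exact arc_nonneg L _
      · exact le_rfl
  · unfold RDPCD
    rw [Finsupp.sum_add_index' (fun _ => rfl) (fun _ _ _ => rfl)]
    rw [Finsupp.sum_smul_index (fun _ => rfl), Finsupp.sum_smul_index (fun _ => rfl)]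
    have h1 : (RD b).sum (fun _ p => (1 / 2 : ℝ) * p) = 1 / 2 := by
      have := total_sum univ b (fun _ => 1 / ((2 * k + 1 : ℕ) : ℝ))
      have h2 : ((RD b).sum fun _ p => p) = 1 := by
        unfold RD
        rw [this, sum_const, card_univ, Fintype.card_fin, nsmul_eq_mul]
        field_simp
      unfold Finsupp.sum at h2 ⊢
      rw [← mul_sum, h2]
      ring
    have h2 : (PCD b L).sum (fun _ p => (1 / 2 : ℝ) * p) = 1 / 2 := by
      have := total_sum univ (fun j : Fin (2 * k + 1) => b (L.a ((j : ℕ) : ℤ)))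
        (fun j => arc L ((j : ℕ) : ℤ) / ∑ i : Fin (2 * k + 1), arc L ((i : ℕ) : ℤ))
      have h2 : ((PCD b L).sum fun _ p => p) = 1 := by
        unfold PCD
        rw [this, ← sum_div, sum_arcs L]
        norm_num
      unfold Finsupp.sum at h2 ⊢
      rw [← mul_sum, h2]
      ring
    rw [h1, h2]
    norm_num

/-- Every profile has a clockwise listing. -/
theorem exists_listing {n : ℕ} (hn : 0 < n) (b : Fin n → Circ) : Nonempty (Clockwise b) := by
  have : Fact ((0 : ℝ) < 1) := ⟨one_pos⟩
  choose r hr hrb using fun i : Fin n =>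
    (show ∃ r : ℝ, r ∈ Set.Ico (0 : ℝ) 1 ∧ ((r : ℝ) : Circ) = b i from by
      refine ⟨(AddCircle.equivIco (1 : ℝ) 0 (b i) : ℝ), ?_, ?_⟩
      · have := (AddCircle.equivIco (1 : ℝ) 0 (b i)).2
        simpa using this
      · exact (AddCircle.equivIco (1 : ℝ) 0).symm_apply_apply (b i))
  have hn' : (0 : ℤ) < n := by exact_mod_cast hn
  have hlt : ∀ j : ℤ, (j % (n : ℤ)).toNat < n := by
    intro j
    have h1 := Int.emod_nonneg j hn'.ne'
    have h2 := Int.emod_lt_of_pos j hn'
    omega
  set σ := Tuple.sort r with hσ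
  have hmono : Monotone (r ∘ σ) := Tuple.monotone_sort r
  refine ⟨⟨fun j => σ ⟨(j % (n : ℤ)).toNat, hlt j⟩,
    fun j => r (σ ⟨(j % (n : ℤ)).toNat, hlt j⟩) + ((j / (n : ℤ) : ℤ) : ℝ), ?_, ?_, ?_, ?_, ?_⟩⟩
  · intro j
    simp
  · have : (fun j : Fin n => σ ⟨((((j : ℕ) : ℤ)) % (n : ℤ)).toNat, hlt ((j : ℕ) : ℤ)⟩) = σ := by
      funext j
      congr 1
      apply Fin.ext
      have h1 : ((((j : ℕ) : ℤ)) % (n : ℤ)) = ((j : ℕ) : ℤ) :=
        Int.emod_eq_of_lt (by positivity) (by exact_mod_cast j.2)
      simp [h1]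
    rw [this]
    exact σ.bijective
  · intro j
    have h1 : (j + (n : ℤ)) % (n : ℤ) = j % (n : ℤ) := by simp
    have h2 : (j + (n : ℤ)) / (n : ℤ) = j / (n : ℤ) + 1 := by
      rw [Int.add_ediv_of_dvd_right (dvd_refl _), Int.ediv_self hn'.ne']
    simp only [h1, h2]
    push_cast
    ring
  · intro i j hij
    have hq : i / (n : ℤ) ≤ j / (n : ℤ) := Int.ediv_le_ediv hn' hij
    rcases hq.lt_or_eq with hq | hq
    · have h1 : ((i / (n : ℤ) : ℤ) : ℝ) + 1 ≤ ((j / (n : ℤ) : ℤ) : ℝ) := by exact_mod_cast hq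
      have h2 := (hr (σ ⟨(i % (n : ℤ)).toNat, hlt i⟩)).2
      have h3 := (hr (σ ⟨(j % (n : ℤ)).toNat, hlt j⟩)).1
      simp only
      linarith
    · have h1 : i % (n : ℤ) ≤ j % (n : ℤ) := by
        have e1 := Int.emod_add_mul_ediv i (n : ℤ)
        have e2 := Int.emod_add_mul_ediv j (n : ℤ)
        rw [hq] at e1
        linarith
      have h2 : (⟨(i % (n : ℤ)).toNat, hlt i⟩ : Fin n) ≤ ⟨(j % (n : ℤ)).toNat, hlt j⟩ :=
        Int.toNat_le_toNat h1
      have h3 := hmono h2
      simp only [Function.comp] at h3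
      simp only [hq]
      linarith
  · intro j
    rw [AddCircle.coe_add, hrb]
    have : (((j / (n : ℤ) : ℤ) : ℝ) : Circ) = 0 := by
      rw [AddCircle.coe_eq_zero_iff]
      exact ⟨j / (n : ℤ), by simp⟩
    rw [this, add_zero]

theorem continuous_cost {n : ℕ} (b : Fin n → Circ) : Continuous (cost b) := by
  unfold cost
  exact continuous_finsetSum _ (fun i _ => continuous_const.dist continuous_id)

theorem exists_opt {n : ℕ} (b : Fin n → Circ) : ∃ v, (∀ w, cost b v ≤ cost b w) ∧
    opt b = cost b v := by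
  have : Fact ((0 : ℝ) < 1) := ⟨one_pos⟩
  obtain ⟨v, -, hv⟩ := isCompact_univ.exists_isMinOn (Set.univ_nonempty (α := Circ))
    (continuous_cost b).continuousOn
  have hv' : ∀ w, cost b v ≤ cost b w := fun w => hv (Set.mem_univ w)
  refine ⟨v, hv', ?_⟩
  apply le_antisymm
  · exact ciInf_le ⟨cost b v, by rintro _ ⟨w, rfl⟩; exact hv' w⟩ v
  · exact le_ciInf hv'

theorem dist_abs {s t : ℝ} (h1 : s ≤ t) (h2 : t - s ≤ 1 / 2) :
    dist (s : Circ) (t : Circ) = t - s := by
  rw [dist_circle h1 (by linarith)]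
  unfold Pool.Agent.R143.CutCore.m
  rw [max_eq_left (by linarith)]
  ring

/-- The main inequality. -/
theorem main {k : ℕ} (b : Fin (2 * k + 1) → Circ) (L : Clockwise b) (hopt : 0 < opt b) :
    sc b (RDPCD b L) < 3 / 2 * opt b := by
  obtain ⟨v, hv, hve⟩ := exists_opt b
  obtain ⟨r, rfl⟩ := QuotientAddGroup.mk_surjective v
  -- the first place beyond the antipode of the optimal point
  obtain ⟨m, hm1, hm2⟩ : ∃ m : ℤ, r - 1 / 2 < L.x m ∧ ∀ z : ℤ, r - 1 / 2 < L.x z → m ≤ z := by
    apply Int.exists_least_of_bdd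
    · obtain ⟨T, hT⟩ := exists_nat_gt (L.x 0 - (r - 1 / 2))
      refine ⟨-(T : ℤ) * ((2 * k + 1 : ℕ) : ℤ), ?_⟩
      intro z hz
      by_contra hcon
      push Not at hcon
      have h1 := L.x_mono hcon.le
      have h2 := x_mul L T (-(T : ℤ) * ((2 * k + 1 : ℕ) : ℤ))
      rw [show -(T : ℤ) * ((2 * k + 1 : ℕ) : ℤ) + T * ((2 * k + 1 : ℕ) : ℤ) = 0 by ring] at h2
      linarith
    · obtain ⟨T, hT⟩ := exists_nat_gt ((r - 1 / 2) - L.x 0)
      refine ⟨0 + T * ((2 * k + 1 : ℕ) : ℤ), ?_⟩
      rw [x_mul L T 0]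
      linarith
  have hm3 : L.x (m - 1) ≤ r - 1 / 2 := by
    by_contra hcon
    push Not at hcon
    have := hm2 _ hcon
    omega
  set y : ℕ → ℝ := fun i => L.x (m + i) - r with hy
  have ymono : Monotone y := by
    intro i j hij
    simp only [hy]
    have := L.x_mono (show m + (i : ℤ) ≤ m + j by omega)
    linarith
  have yper : ∀ i, y (i + (2 * k + 1)) = y i + 1 := by
    intro i
    simp only [hy]
    have := L.x_per (m + i)
    rw [show m + ((i + (2 * k + 1) : ℕ) : ℤ) = m + i + ((2 * k + 1 : ℕ) : ℤ) by push_cast; ring,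
      this]
    ring
  have ylo : -(1 / 2) ≤ y 0 := by
    simp only [hy, Nat.cast_zero, add_zero]
    linarith
  have yhi : y (2 * k) ≤ 1 / 2 := by
    simp only [hy]
    have := L.x_per (m - 1)
    rw [show m - 1 + ((2 * k + 1 : ℕ) : ℤ) = m + ((2 * k : ℕ) : ℤ) by push_cast; ring] at this
    rw [this]
    linarith
  have hpos : ∀ i : ℕ, b (L.a (m + i)) = ((y i : ℝ) : Circ) + ((r : ℝ) : Circ) := by
    intro i
    rw [← L.pos, ← AddCircle.coe_add]
    congr 1
    simp [hy]
  -- change of the summation over the agents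
  have hsum : ∀ g : Circ → ℝ, ∑ i, g (b i) =
      ∑ j ∈ range (2 * k + 1), g (((y j : ℝ) : Circ) + ((r : ℝ) : Circ)) := by
    intro g
    have h1 : ∑ i, g (b i) = ∑ j : Fin (2 * k + 1), g (b (L.a ((j : ℕ) : ℤ))) :=
      (Function.Bijective.sum_comp L.a_bij (fun i => g (b i))).symm
    rw [h1, Fin.sum_univ_eq_sum_range (fun j : ℕ => g (b (L.a (j : ℤ)))),
      ← shift (2 * k + 1) (fun j => g (b (L.a j))) (fun j => by simp only [L.a_per]) m]
    apply sum_congr rfl
    intro j _
    rw [hpos]
  have hcost : ∀ s : ℝ, cost b (((s : ℝ) : Circ) + ((r : ℝ) : Circ)) =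
      ∑ j ∈ range (2 * k + 1), dist ((y j : ℝ) : Circ) ((s : ℝ) : Circ) := by
    intro s
    unfold cost
    rw [hsum (fun z => dist z (((s : ℝ) : Circ) + ((r : ℝ) : Circ)))]
    apply sum_congr rfl
    intro j _
    rw [dist_add_right]
  have hcost0 : cost b ((r : ℝ) : Circ) =
      ∑ j ∈ range (2 * k + 1), dist ((y j : ℝ) : Circ) ((0 : ℝ) : Circ) := by
    rw [← hcost 0]
    simp
  have hmin : ∀ s : ℝ, ∑ j ∈ range (2 * k + 1), dist ((y j : ℝ) : Circ) ((0 : ℝ) : Circ) ≤
      ∑ j ∈ range (2 * k + 1), dist ((y j : ℝ) : Circ) ((s : ℝ) : Circ) := by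
    intro s
    rw [← hcost s, ← hcost0]
    exact hv _
  have hcard1 : ∀ e : ℝ, ∑ j ∈ range (2 * k + 1), (if j < k then e else -e) = -e := by
    intro e
    rw [show 2 * k + 1 = k + (k + 1) by ring, sum_range_add]
    have h1 : ∑ x ∈ range k, (if x < k then e else -e) = k * e := by
      rw [sum_congr rfl (fun x hx => if_pos (mem_range.1 hx)), sum_const, card_range,
        nsmul_eq_mul]
    have h2 : ∑ x ∈ range (k + 1), (if k + x < k then e else -e) = (k + 1 : ℕ) * (-e) := by
      rw [sum_congr rfl (fun x hx => if_neg (by omega)), sum_const, card_range, nsmul_eq_mul]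
    rw [h1, h2]
    push_cast
    ring
  have hcard2 : ∀ e : ℝ, ∑ j ∈ range (2 * k + 1), (if j ≤ k then -e else e) = -e := by
    intro e
    rw [show 2 * k + 1 = (k + 1) + k by ring, sum_range_add]
    have h1 : ∑ x ∈ range (k + 1), (if x ≤ k then -e else e) = (k + 1 : ℕ) * (-e) := by
      rw [sum_congr rfl (fun x hx => if_pos (Nat.lt_succ_iff.1 (mem_range.1 hx))), sum_const,
        card_range, nsmul_eq_mul]
    have h2 : ∑ x ∈ range k, (if k + 1 + x ≤ k then -e else e) = k * e := by
      rw [sum_congr rfl (fun x hx => if_neg (by omega)), sum_const, card_range, nsmul_eq_mul]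
    rw [h1, h2]
    push_cast
    ring
  have yk_le : y k ≤ 1 / 2 := (ymono (by omega)).trans yhi
  have yk_ge : -(1 / 2) ≤ y k := ylo.trans (ymono (Nat.zero_le k))
  have ymid : y k = 0 := by
    rcases lt_trichotomy (y k) 0 with h | h | h
    · exfalso
      have hle : ∑ j ∈ range (2 * k + 1), dist ((y j : ℝ) : Circ) ((y k : ℝ) : Circ) ≤
          ∑ j ∈ range (2 * k + 1), (dist ((y j : ℝ) : Circ) ((0 : ℝ) : Circ) +
            (if j ≤ k then -(- y k) else - y k)) := by
        apply sum_le_sum
        intro j hj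
        rw [mem_range] at hj
        split_ifs with hjk
        · have h1 : y j ≤ y k := ymono hjk
          have h2 : -(1 / 2) ≤ y j := ylo.trans (ymono (Nat.zero_le j))
          rw [dist_abs h1 (by linarith), dist_abs (by linarith) (by linarith)]
          linarith
        · have h1 : dist ((y k : ℝ) : Circ) ((0 : ℝ) : Circ) = 0 - y k :=
            dist_abs h.le (by linarith)
          have h2 := dist_triangle ((y j : ℝ) : Circ) ((0 : ℝ) : Circ) ((y k : ℝ) : Circ)
          rw [dist_comm ((0 : ℝ) : Circ) ((y k : ℝ) : Circ), h1] at h2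
          linarith
      rw [sum_add_distrib, hcard2] at hle
      have := hmin (y k)
      linarith
    · exact h
    · exfalso
      have hle : ∑ j ∈ range (2 * k + 1), dist ((y j : ℝ) : Circ) ((y k : ℝ) : Circ) ≤
          ∑ j ∈ range (2 * k + 1), (dist ((y j : ℝ) : Circ) ((0 : ℝ) : Circ) +
            (if j < k then y k else - y k)) := by
        apply sum_le_sum
        intro j hj
        rw [mem_range] at hj
        split_ifs with hjk
        · have h1 : dist ((0 : ℝ) : Circ) ((y k : ℝ) : Circ) = y k - 0 :=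
            dist_abs h.le (by linarith)
          have h2 := dist_triangle ((y j : ℝ) : Circ) ((0 : ℝ) : Circ) ((y k : ℝ) : Circ)
          rw [h1] at h2
          linarith
        · push Not at hjk
          have h1 : y k ≤ y j := ymono hjk
          have h2 : y j ≤ 1 / 2 := (ymono (by omega)).trans yhi
          rw [dist_comm, dist_abs h1 (by linarith), dist_comm ((y j : ℝ) : Circ),
            dist_abs (by linarith) (by linarith)]
          linarith
      rw [sum_add_distrib, hcard1] at hle
      have := hmin (y k)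
      linarith
  have hgood : Good k y := ⟨ymono, yper, ymid, ylo, yhi⟩
  have hoptk : opt b = ∑ j ∈ range (2 * k + 1),
      dist ((y j : ℝ) : UnitAddCircle) ((y k : ℝ) : UnitAddCircle) := by
    rw [hve, ymid]
    exact hcost0
  have hRD : sc b (RD b) = (∑ i ∈ range (2 * k + 1), ∑ j ∈ range (2 * k + 1),
        dist ((y j : ℝ) : UnitAddCircle) ((y i : ℝ) : UnitAddCircle)) / (2 * k + 1) := by
    unfold RD
    rw [sc_sum, ← mul_sum, hsum (cost b), sum_congr rfl (fun i _ => hcost (y i))]
    push_cast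
    ring
  have hPCD : sc b (PCD b L) =
      ∑ i ∈ range (2 * k + 1), (y (i + k + 1) - y (i + k)) * ∑ j ∈ range (2 * k + 1),
        dist ((y j : ℝ) : UnitAddCircle) ((y i : ℝ) : UnitAddCircle) := by
    unfold PCD
    rw [sc_sum, sum_arcs L]
    rw [Fin.sum_univ_eq_sum_range (fun j : ℕ => arc L (j : ℤ) / 1 * cost b (b (L.a (j : ℤ)))),
      ← shift (2 * k + 1) (fun j => arc L j / 1 * cost b (b (L.a j)))
        (fun j => by rw [arc_per L, L.a_per]) m]
    apply sum_congr rfl
    intro i _
    rw [hpos, hcost (y i), div_one]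
    congr 1
    unfold arc
    simp only [hy]
    push_cast
    rw [show m + (i : ℤ) + k + 1 = m + (i + k + 1) by ring,
      show m + (i : ℤ) + k = m + (i + k) by ring]
    ring
  have hcore := real_core hgood (by rw [← hoptk]; exact hopt)
  unfold RDPCD
  rw [sc_comb, hRD, hPCD, hoptk]
  linarith

/-- **Main result.** For every odd `n = 2 k + 1 ≥ 3` and every profile `b` of `n` agents on the
circle, a clockwise listing of the reports exists, and for every clockwise listing RD+PCD outputs a
lottery and has an approximation ratio smaller than `3 / 2`. -/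
theorem result : ∀ k : ℕ, 1 ≤ k → ∀ b : Fin (2 * k + 1) → Circ,
    Nonempty (Clockwise b) ∧
      ∀ L : Clockwise b, IsLottery (RDPCD b L) ∧ apx b (RDPCD b L) < 3 / 2 := by
  intro k _ b
  refine ⟨exists_listing (by omega) b, fun L => ⟨isLottery b L, ?_⟩⟩
  unfold apx
  split_ifs with h
  · rw [div_lt_iff₀ h]
    exact main b L h
  · norm_num

end Pool.Agent.Results.MP_9e0a8c_lc.HalfRatio
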