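import Mathlib
import Pool.Agent.R565.RDPCDc

set_option autoImplicit false

/-!
# RD+PCD on the circle has approximation ratio below 3/2
-/

namespace Pool.Agent.Results.MP_9e0a8c_lc.ThreeHalves

open Finset Pool.Agent.R565.RDPCD

/-- The circle `G` of length `1`, with its quotient metric `min (|u-v|) (1-|u-v|)`. -/
abbrev G := UnitAddCircle

/-- The social cost of the point `v` for the profile `b`. -/
noncomputable def sc {n : ℕ} (b : Fin n → G) (v : G) : ℝ := ∑ i, dist (b i) v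

/-- The optimal social cost. -/
noncomputable def opt {n : ℕ} (b : Fin n → G) : ℝ := ⨅ v : G, sc b v

/-- The social cost of the lottery which outputs the report of agent `i` with probability
`p i`. -/
noncomputable def scLot {n : ℕ} (b : Fin n → G) (p : Fin n → ℝ) : ℝ := ∑ i, p i * sc b (b i)

/-- Random dictator: every agent is drawn with the same probability. -/
noncomputable def rd (n : ℕ) : Fin n → ℝ := fun _ => 1 / n

/-- A clockwise listing `a_0, …, a_{2k}` of the `2k+1` agents: their reports are lifted to the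
real line as a nondecreasing sequence `pos` which makes at most one turn. -/
structure Listing {k : ℕ} (b : Fin (2 * k + 1) → G) where
  /-- the agent `a_j` -/
  agent : Equiv.Perm (Fin (2 * k + 1))
  /-- real coordinate of the report of `a_j` -/
  pos : Fin (2 * k + 1) → ℝ
  mono : Monotone pos
  turn : ∀ i j, pos j ≤ pos i + 1
  coe_pos : ∀ j, ((pos j : ℝ) : G) = b (agent j)

/-- Length of the clockwise arc from the report of `a_e` to the report of `a_{e+1}`
(indices modulo `2k+1`). -/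
noncomputable def Listing.gap {k : ℕ} {b : Fin (2 * k + 1) → G} (L : Listing b)
    (e : Fin (2 * k + 1)) : ℝ :=
  if h : (e : ℕ) + 1 < 2 * k + 1 then L.pos ⟨(e : ℕ) + 1, h⟩ - L.pos e else L.pos 0 + 1 - L.pos e

/-- Length of the arc opposing `a_j`: the clockwise arc from `a_{j+k}` to
`a_{j-k} = a_{j+k+1}`. -/
noncomputable def Listing.opp {k : ℕ} {b : Fin (2 * k + 1) → G} (L : Listing b)
    (j : Fin (2 * k + 1)) : ℝ :=
  L.gap ⟨((j : ℕ) + k) % (2 * k + 1), Nat.mod_lt _ (Nat.succ_pos _)⟩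

/-- Proportional circle distance: the report of `a_j` is output with probability proportional
to the length of the arc opposing `a_j`. -/
noncomputable def pcd {k : ℕ} {b : Fin (2 * k + 1) → G} (L : Listing b) :
    Fin (2 * k + 1) → ℝ :=
  fun i => L.opp (L.agent.symm i) / ∑ j, L.opp j

/-- RD+PCD runs RD and PCD with probability `1/2` each. -/
noncomputable def rdpcd {k : ℕ} {b : Fin (2 * k + 1) → G} (L : Listing b) :
    Fin (2 * k + 1) → ℝ :=
  fun i => 1 / 2 * rd (2 * k + 1) i + 1 / 2 * pcd L i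

open Classical in
/-- The approximation ratio of RD+PCD on the profile `b`; it is `1` when all agents report the
same point. -/
noncomputable def apx {k : ℕ} (b : Fin (2 * k + 1) → G) (L : Listing b) : ℝ :=
  if ∀ i j, b i = b j then 1 else scLot b (rdpcd L) / opt b

/-! ### proofs -/

lemma exists_listing {k : ℕ} (b : Fin (2 * k + 1) → G) : Nonempty (Listing b) := by
  set r : Fin (2 * k + 1) → ℝ := fun i => ((AddCircle.equivIco (1 : ℝ) 0 (b i)) : ℝ) with hr
  have hr1 : ∀ i, 0 ≤ r i ∧ r i < 1 := by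
    intro i
    have h := (AddCircle.equivIco (1 : ℝ) 0 (b i)).2
    exact ⟨h.1, lt_of_lt_of_eq h.2 (zero_add 1)⟩
  refine ⟨⟨Tuple.sort r, r ∘ Tuple.sort r, Tuple.monotone_sort r, ?_, ?_⟩⟩
  · intro i j
    have h1 := hr1 (Tuple.sort r i)
    have h2 := hr1 (Tuple.sort r j)
    simp only [Function.comp_apply]
    linarith
  · intro j
    simp only [Function.comp_apply, hr]
    exact AddCircle.coe_equivIco

section

variable {k : ℕ} {b : Fin (2 * k + 1) → G} (L : Listing b)

/-- the periodic lift -/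
noncomputable def Listing.X (L : Listing b) (i : ℤ) : ℝ :=
  L.pos ⟨(i % ((2 * k + 1 : ℕ) : ℤ)).toNat, by
    have h1 := Int.emod_nonneg i (show ((2 * k + 1 : ℕ) : ℤ) ≠ 0 by positivity)
    have h2 := Int.emod_lt_of_pos i (show (0 : ℤ) < ((2 * k + 1 : ℕ) : ℤ) by positivity)
    omega⟩ + ((i / ((2 * k + 1 : ℕ) : ℤ) : ℤ) : ℝ)

lemma Listing.X_eq (q : ℤ) (r : ℕ) (hr : r < 2 * k + 1) :
    L.X ((r : ℤ) + q * ((2 * k + 1 : ℕ) : ℤ)) = L.pos ⟨r, hr⟩ + q := by
  have h1 : ((r : ℤ) + q * ((2 * k + 1 : ℕ) : ℤ)) % ((2 * k + 1 : ℕ) : ℤ) = r := by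
    rw [Int.add_mul_emod_self_right]
    exact Int.emod_eq_of_lt (by positivity) (by exact_mod_cast hr)
  have h2 : ((r : ℤ) + q * ((2 * k + 1 : ℕ) : ℤ)) / ((2 * k + 1 : ℕ) : ℤ) = q := by
    rw [Int.add_mul_ediv_right _ _ (by positivity), Int.ediv_eq_zero_of_lt (by positivity)
      (by exact_mod_cast hr), zero_add]
  unfold Listing.X
  rw [h2]
  congr 2
  apply Fin.ext
  simp only
  rw [h1]
  exact Int.toNat_natCast r

lemma Listing.exists_rep (k : ℕ) (i : ℤ) : ∃ (q : ℤ) (r : ℕ), r < 2 * k + 1 ∧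
    i = (r : ℤ) + q * ((2 * k + 1 : ℕ) : ℤ) := by
  refine ⟨i / ((2 * k + 1 : ℕ) : ℤ), (i % ((2 * k + 1 : ℕ) : ℤ)).toNat, ?_, ?_⟩
  · have h1 := Int.emod_nonneg i (show ((2 * k + 1 : ℕ) : ℤ) ≠ 0 by positivity)
    have h2 := Int.emod_lt_of_pos i (show (0 : ℤ) < ((2 * k + 1 : ℕ) : ℤ) by positivity)
    omega
  · have h1 := Int.emod_nonneg i (show ((2 * k + 1 : ℕ) : ℤ) ≠ 0 by positivity)
    rw [Int.toNat_of_nonneg h1]
    have := Int.emod_add_mul_ediv i ((2 * k + 1 : ℕ) : ℤ)
    linarith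

lemma Listing.X_per (i : ℤ) : L.X (i + ((2 * k + 1 : ℕ) : ℤ)) = L.X i + 1 := by
  obtain ⟨q, r, hr, rfl⟩ := Listing.exists_rep k i
  rw [show (r : ℤ) + q * ((2 * k + 1 : ℕ) : ℤ) + ((2 * k + 1 : ℕ) : ℤ)
    = (r : ℤ) + (q + 1) * ((2 * k + 1 : ℕ) : ℤ) by ring, L.X_eq _ r hr, L.X_eq _ r hr]
  push_cast; ring

/-- consecutive differences of the lift are the gaps -/
lemma Listing.X_gap (q : ℤ) (r : ℕ) (hr : r < 2 * k + 1) :
    L.X ((r : ℤ) + q * ((2 * k + 1 : ℕ) : ℤ) + 1) - L.X ((r : ℤ) + q * ((2 * k + 1 : ℕ) : ℤ))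
      = L.gap ⟨r, hr⟩ := by
  rw [L.X_eq q r hr]
  unfold Listing.gap
  by_cases h : r + 1 < 2 * k + 1
  · have h' : ((⟨r, hr⟩ : Fin (2 * k + 1)) : ℕ) + 1 < 2 * k + 1 := h
    rw [dif_pos h']
    have := L.X_eq q (r + 1) h
    rw [show (r : ℤ) + q * ((2 * k + 1 : ℕ) : ℤ) + 1
      = ((r + 1 : ℕ) : ℤ) + q * ((2 * k + 1 : ℕ) : ℤ) by push_cast; ring, this]
    ring
  · have h' : ¬ (((⟨r, hr⟩ : Fin (2 * k + 1)) : ℕ) + 1 < 2 * k + 1) := h
    rw [dif_neg h']
    have hr' : r = 2 * k := by omega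
    have := L.X_eq (q + 1) 0 (by omega)
    rw [show (r : ℤ) + q * ((2 * k + 1 : ℕ) : ℤ) + 1
      = ((0 : ℕ) : ℤ) + (q + 1) * ((2 * k + 1 : ℕ) : ℤ) by rw [hr']; push_cast; ring, this]
    push_cast
    have : (⟨0, by omega⟩ : Fin (2 * k + 1)) = 0 := rfl
    rw [this]; ring

lemma Listing.gap_nonneg (e : Fin (2 * k + 1)) : 0 ≤ L.gap e := by
  unfold Listing.gap
  split_ifs with h
  · have : L.pos e ≤ L.pos ⟨(e : ℕ) + 1, h⟩ := L.mono (by
      rw [Fin.le_def]; exact Nat.le_succ _)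
    linarith
  · have := L.turn 0 e
    linarith

lemma Listing.X_mono : Monotone L.X := by
  apply monotone_int_of_le_succ
  intro i
  obtain ⟨q, r, hr, rfl⟩ := Listing.exists_rep k i
  have := L.X_gap q r hr
  have h2 := L.gap_nonneg ⟨r, hr⟩
  linarith

lemma Listing.X_zero (j : Fin (2 * k + 1)) : L.X ((j : ℕ) : ℤ) = L.pos j := by
  have := L.X_eq 0 j.1 j.2
  simpa using this

lemma Listing.opp_eq (j : Fin (2 * k + 1)) :
    L.X (((j : ℕ) : ℤ) + 1 + k) - L.X (((j : ℕ) : ℤ) + k) = L.opp j := by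
  unfold Listing.opp
  rw [← L.X_gap ((((j : ℕ) + k) / (2 * k + 1) : ℕ) : ℤ)]
  have h : (((((j : ℕ) + k) % (2 * k + 1) : ℕ) : ℤ)
      + ((((j : ℕ) + k) / (2 * k + 1) : ℕ) : ℤ) * ((2 * k + 1 : ℕ) : ℤ)) = ((j : ℕ) : ℤ) + k := by
    have := Nat.mod_add_div ((j : ℕ) + k) (2 * k + 1)
    have h2 : ((((((j : ℕ) + k) % (2 * k + 1)) + (2 * k + 1) * (((j : ℕ) + k) / (2 * k + 1)) : ℕ)) : ℤ)
      = (((j : ℕ) + k : ℕ) : ℤ) := by rw [this]
    push_cast at h2 ⊢
    linarith
  rw [h]
  congr 1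
  congr 1
  ring

lemma Listing.opp_nonneg (j : Fin (2 * k + 1)) : 0 ≤ L.opp j := L.gap_nonneg _

lemma Listing.opp_sum : ∑ j, L.opp j = 1 := by
  have h1 : ∑ j, L.opp j = ∑ j ∈ range (2 * k + 1), (L.X ((j : ℤ) + 1 + k) - L.X ((j : ℤ) + k)) := by
    rw [Finset.sum_range]
    apply Finset.sum_congr rfl
    intro j _
    exact (L.opp_eq j).symm
  rw [h1]
  have h2 : ∀ m : ℕ, ∑ j ∈ range m, (L.X ((j : ℤ) + 1 + k) - L.X ((j : ℤ) + k))
      = L.X ((m : ℤ) + k) - L.X k := by
    intro m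
    induction m with
    | zero => simp
    | succ m ih => rw [Finset.sum_range_succ, ih]; push_cast; ring
  rw [h2, add_comm (((2 * k + 1 : ℕ)) : ℤ) (k : ℤ), L.X_per]; ring

lemma rho_dist (x y : ℝ) : rho (x - y) = dist (x : G) (y : G) := by
  unfold rho
  rw [dist_eq_norm, AddCircle.coe_sub]

/-- the main inequality in terms of the profile -/
lemma main_ineq (v : G) :
    ((2 * (k : ℝ) + 1) + 1) * (∑ j, L.opp j * sc b (b (L.agent j)))
      + (∑ j, sc b (b (L.agent j))) ≤ (3 * (2 * (k : ℝ) + 1) + 1) * sc b v := by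
  obtain ⟨x, rfl⟩ := QuotientAddGroup.mk_surjective v
  have h := realIneq k L.X L.X_mono L.X_per x
  have hsc : ∀ y : ℝ, ∑ i ∈ range (2 * k + 1), rho (L.X (i : ℤ) - y) = sc b (y : G) := by
    intro y
    rw [Finset.sum_range]
    unfold sc
    rw [← Equiv.sum_comp L.agent (fun i => dist (b i) (y : G))]
    apply Finset.sum_congr rfl
    intro i _
    rw [rho_dist, L.X_zero, L.coe_pos]
  have e1 : ∑ j ∈ range (2 * k + 1), (L.X ((j : ℤ) + 1 + k) - L.X ((j : ℤ) + k)) *
          ∑ i ∈ range (2 * k + 1), rho (L.X (i : ℤ) - L.X (j : ℤ))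
      = ∑ j, L.opp j * sc b (b (L.agent j)) := by
    rw [Finset.sum_range]
    apply Finset.sum_congr rfl
    intro j _
    rw [L.opp_eq, hsc, L.X_zero, L.coe_pos]
  have e2 : ∑ j ∈ range (2 * k + 1), ∑ i ∈ range (2 * k + 1), rho (L.X (i : ℤ) - L.X (j : ℤ))
      = ∑ j, sc b (b (L.agent j)) := by
    rw [Finset.sum_range]
    apply Finset.sum_congr rfl
    intro j _
    rw [hsc, L.X_zero, L.coe_pos]
  rw [e1, e2, hsc] at h
  exact h

end

lemma rd_bound {n : ℕ} (b : Fin n → G) (v : G) :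
    ∑ j, sc b (b j) ≤ (2 * (n : ℝ) - 2) * sc b v := by
  have h1 : ∀ j i : Fin n, dist (b i) (b j) ≤ dist (b i) v + dist (b j) v
      - (if i = j then 2 * dist (b i) v else 0) := by
    intro j i
    split_ifs with h
    · subst h
      rw [dist_self]; linarith
    · have := dist_triangle_right (b i) (b j) v
      linarith
  calc ∑ j, sc b (b j) ≤ ∑ j : Fin n, ∑ i : Fin n, (dist (b i) v + dist (b j) v
      - (if i = j then 2 * dist (b i) v else 0)) := by
        apply Finset.sum_le_sum; intro j _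
        apply Finset.sum_le_sum; intro i _
        exact h1 j i
    _ = (2 * (n : ℝ) - 2) * sc b v := by
        unfold sc
        simp only [Finset.sum_sub_distrib, Finset.sum_add_distrib, Finset.sum_const,
          Finset.card_univ, Fintype.card_fin, nsmul_eq_mul, Finset.sum_ite_eq', Finset.mem_univ,
          if_true, ← Finset.mul_sum]
        ring

lemma sc_cont {n : ℕ} (b : Fin n → G) : Continuous (sc b) := by
  unfold sc
  exact continuous_finsetSum _ (fun i _ => continuous_const.dist continuous_id)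

lemma sc_nonneg {n : ℕ} (b : Fin n → G) (v : G) : 0 ≤ sc b v :=
  Finset.sum_nonneg (fun _ _ => dist_nonneg)

lemma exists_opt {n : ℕ} (b : Fin n → G) : ∃ v, opt b = sc b v := by
  obtain ⟨v, _, hv⟩ := (isCompact_univ (X := G)).exists_isMinOn ⟨0, Set.mem_univ _⟩
    (sc_cont b).continuousOn
  refine ⟨v, le_antisymm (ciInf_le ⟨0, ?_⟩ v) (le_ciInf fun w => hv (Set.mem_univ w))⟩
  rintro _ ⟨w, rfl⟩
  exact sc_nonneg b w

lemma scLot_rdpcd {k : ℕ} {b : Fin (2 * k + 1) → G} (L : Listing b) :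
    scLot b (rdpcd L) = 1 / 2 * ((∑ j, sc b (b j)) / ((2 * k + 1 : ℕ) : ℝ))
      + 1 / 2 * ∑ j, L.opp j * sc b (b (L.agent j)) := by
  unfold scLot rdpcd rd pcd
  rw [L.opp_sum]
  have h1 : ∑ i, L.opp (L.agent.symm i) * sc b (b i)
      = ∑ j, L.opp j * sc b (b (L.agent j)) := by
    rw [← Equiv.sum_comp L.agent (fun i => L.opp (L.agent.symm i) * sc b (b i))]
    simp
  rw [← h1, Finset.sum_div, Finset.mul_sum, Finset.mul_sum, ← Finset.sum_add_distrib]
  apply Finset.sum_congr rfl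
  intro i _
  ring

/-- **RD+PCD has approximation ratio below `3/2` on the circle.** For every odd `n = 2k+1 ≥ 3`
and every profile, a clockwise listing exists, and whichever clockwise listing is used, PCD is a
probability distribution and the ratio of RD+PCD is at most `3/2 - 1/(n(n+1)) < 3/2`. -/
theorem result (k : ℕ) (_hk : 1 ≤ k) (b : Fin (2 * k + 1) → G) :
    Nonempty (Listing b) ∧ ∀ L : Listing b,
      ((∀ i, 0 ≤ pcd L i) ∧ ∑ i, pcd L i = 1) ∧
      apx b L ≤ 3 / 2 - 1 / ((2 * (k : ℝ) + 1) * (2 * (k : ℝ) + 2)) ∧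
      apx b L < 3 / 2 := by
  refine ⟨exists_listing b, fun L => ?_⟩
  have hk0 : (0 : ℝ) ≤ k := by positivity
  have hk1 : (1 : ℝ) ≤ k := by exact_mod_cast _hk
  have hprod : (0 : ℝ) < (2 * (k : ℝ) + 1) * (2 * (k : ℝ) + 2) := by positivity
  have hfrac : (0 : ℝ) < 1 / ((2 * (k : ℝ) + 1) * (2 * (k : ℝ) + 2)) := by positivity
  have hmain : apx b L ≤ 3 / 2 - 1 / ((2 * (k : ℝ) + 1) * (2 * (k : ℝ) + 2)) := by
    unfold apx
    split_ifs with hall
    · have : 1 / ((2 * (k : ℝ) + 1) * (2 * (k : ℝ) + 2)) ≤ 1 / 2 := by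
        apply one_div_le_one_div_of_le (by norm_num)
        nlinarith
      linarith
    · obtain ⟨v, hv⟩ := exists_opt b
      have hpos : 0 < opt b := by
        rw [hv]
        rcases (sc_nonneg b v).eq_or_lt with h | h
        · exfalso
          apply hall
          have h1 : ∀ i, b i = v := by
            intro i
            have := (Finset.sum_eq_zero_iff_of_nonneg (fun i _ => dist_nonneg)).1 h.symm i
              (Finset.mem_univ i)
            exact dist_eq_zero.1 this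
          intro i j
          rw [h1 i, h1 j]
        · exact h
      rw [div_le_iff₀ hpos, scLot_rdpcd L]
      have h1 := main_ineq L v
      have h2 := rd_bound b v
      rw [← hv] at h1 h2
      have h3 : ∑ j, sc b (b (L.agent j)) = ∑ j, sc b (b j) :=
        Equiv.sum_comp L.agent (fun j => sc b (b j))
      rw [h3] at h1
      set R := ∑ j, sc b (b j) with hR
      set P := ∑ j, L.opp j * sc b (b (L.agent j)) with hP
      set S := opt b with hS
      push_cast at h2 ⊢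
      have e1 : (3 / 2 - 1 / ((2 * (k : ℝ) + 1) * (2 * (k : ℝ) + 2))) * S
          = 1 / 2 * (((3 * (2 * (k : ℝ) + 1) + 1) * S) / (2 * (k : ℝ) + 2)
            + ((2 * (2 * (k : ℝ) + 1) - 2) * S) / ((2 * (k : ℝ) + 1) * (2 * (k : ℝ) + 2))) := by
        field_simp
        ring
      have e2 : 1 / 2 * (R / (2 * (k : ℝ) + 1)) + 1 / 2 * P
          = 1 / 2 * ((((2 * (k : ℝ) + 1) + 1) * P + R) / (2 * (k : ℝ) + 2)
            + R / ((2 * (k : ℝ) + 1) * (2 * (k : ℝ) + 2))) := by
        field_simp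
        ring
      rw [e1, e2]
      apply mul_le_mul_of_nonneg_left _ (by norm_num)
      apply add_le_add
      · exact div_le_div_of_nonneg_right h1 (by positivity)
      · exact div_le_div_of_nonneg_right h2 hprod.le
  refine ⟨⟨?_, ?_⟩, hmain, by linarith⟩
  · intro i
    unfold pcd
    rw [L.opp_sum, div_one]
    exact L.opp_nonneg _
  · unfold pcd
    rw [← Finset.sum_div, Equiv.sum_comp L.agent.symm (fun j => L.opp j), L.opp_sum, div_one]

end Pool.Agent.Results.MP_9e0a8c_lc.ThreeHalves
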